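import Pool.Agent.H14R3.KK.Defs

/-! Task POLYI of project KK (MP_d47e08_pr). -/

set_option autoImplicit false
open MeasureTheory ProbabilityTheory Filter Topology

namespace KK14

theorem POLYIx.pow_int (k : ℕ) : Integrable (fun x : ℝ => x ^ k) (gaussianReal 0 1) := by
  have h : MemLp (id : ℝ → ℝ) (k : ENNReal) (gaussianReal 0 1) :=
    memLp_id_gaussianReal' k (by simp)
  have h2 := h.integrable_norm_pow'
  refine (integrable_norm_iff (by fun_prop)).1 ?_
  simpa [norm_pow] using h2

theorem POLYI {ι : Type*} [Fintype ι] (P : MvPolynomial ι ℝ) :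
    Integrable (fun z : ι → ℝ => MvPolynomial.eval z P)
      (Measure.pi fun _ : ι => gaussianReal 0 1) := by
  simp only [MvPolynomial.eval_eq']
  refine integrable_finsetSum _ fun d _ => ?_
  refine Integrable.const_mul ?_ _
  exact Integrable.fintype_prod (f := fun (i : ι) (x : ℝ) => x ^ d i)
    (fun i => POLYIx.pow_int (d i))

theorem POLYIx.aux (k : ℕ) : (∃ P : Polynomial ℝ, ∀ x, He k x = P.eval x) ∧
    ∃ P : Polynomial ℝ, ∀ x, He (k + 1) x = P.eval x := by
  induction k with
  | zero => exact ⟨⟨1, fun x => by simp [He]⟩, ⟨Polynomial.X, fun x => by simp [He]⟩⟩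
  | succ k ih =>
    obtain ⟨⟨P, hP⟩, Q, hQ⟩ := ih
    refine ⟨⟨Q, hQ⟩, Polynomial.X * Q - Polynomial.C ((k : ℝ) + 1) * P, fun x => ?_⟩
    simp only [He, hP, hQ, Polynomial.eval_sub, Polynomial.eval_mul, Polynomial.eval_X,
      Polynomial.eval_C]

/-- Hermite polynomials as polynomials -/
theorem HEPOLY (k : ℕ) : ∃ P : Polynomial ℝ, ∀ x, He k x = P.eval x :=
  (POLYIx.aux k).1

end KK14
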